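import Mathlib

/-! Integer data of the certificate and the two finite checks. -/

namespace Pool.Agent.Lib.CL43

open Finset

/-- colours -/
abbrev Cc : Type := ZMod 27

/-- free types of half-edges -/
abbrev Io : Type := Bool × Cc

def la : List ℤ := [-119999, 28589, -257, 21037, -1040, -22383, -2062, 15241, 5099, -7856, -7804,
  20745, 19843, -1290, -957, 31891, -17233, -8578, 1586, 8026, 10506, -11679, -15729, 13905, 17429,
  -1630, 69234]

def lb : List ℤ := [98578, -275, 7317, 10, -6770, 4895, 4579, -4218, 272, -3304, -767, 5978, 20153,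
  23486, 23486, 20153, 5978, -767, -3304, 272, -4218, 4579, 4895, -6770, 10, 7317, -275]

def lc : List ℤ := [139847, -42406, -1837, -13388, 1952, 15578, 474, -10682, -394, 1121, 2282,
  6919, -10919, 3691, 3691, -10919, 6919, 2282, 1121, -394, -10682, 474, 15578, 1952, -13388, -1837,
  -42406]

def ld : List ℤ := [-54531, 48811, 24058, 29210, 29025, 901, -7176, 4366, 13, 645, -1044, -1252,
  4837, -7393, -7661, -14019, -57387, -19908, -6514, -5571, 4731, 1623, -6975, 275, 5809, 421,
  11951]

def ll : List ℤ := [1241, -965, -1758, -96, -909, -1511, -1672, 563, -48, -945, -869, 572, 1952,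
  -1013, 307, 778, -590, -2869, -860, 24, -783, -1041, -754, 964, -547, -412, 253]

/-- rows of the majorant -/
def Az (k : Option Cc) (i : Io) : ℤ :=
  k.elim 520 fun k => (if i.1 then lb else la).getD (i.2 - k).val 0

/-- rows of the difference -/
def Gz (k : Cc) (i : Io) : ℤ := (if i.1 then ld else lc).getD (i.2 - k).val 0

/-- the compatibility matrix of the free types -/
def Bz (i j : Io) : ℤ :=
  if i.1 then (if j.1 then (if 12 ≤ (i.2 - j.2).val ∧ (i.2 - j.2).val ≤ 15 then 1 else 0)
    else (if i.2 = j.2 - 11 then 1 else 0))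
  else (if j.1 then (if j.2 = i.2 - 11 then 1 else 0) else 0)

/-- the linear part of the weights -/
def Lz (t : Cc) (i : Io) : ℤ := if i.1 then ll.getD (i.2 - t).val 0 else 0

def Wy (i : Io) : ℤ := Lz 11 i + if i = (true, 0) then 10000 else 0

def Wz (i : Io) : ℤ := if i = (false, 0) then 10000 else 0

def Xz (k : Option Cc) : ℤ := ∑ i, Az k i * Lz 0 i

def Yz (k : Option Cc) : ℤ := ∑ i, Az k i * Wy i

def Zz (k : Option Cc) : ℤ := ∑ i, Az k i * Wz i

theorem chk1 : ∀ i j : Io, 10 ^ 10 * Bz i j + ∑ k, Gz k i * Gz k j ≤ ∑ k, Az k i * Az k j := by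
  decide +kernel

theorem chk2 : ∑ k, Xz k * Xz k = 556074464442485518 ∧ ∑ k, Yz k * Yz k = 1099237557757705518 ∧
    ∑ k, Zz k * Zz k = 2461572709600000000 ∧ ∑ k, Xz k * Yz k = 437562317650275121 ∧
    ∑ k, Xz k * Zz k = -134567456788510000 ∧ ∑ k, Yz k * Zz k = -1344677989450920000 := by
  decide +kernel

end Pool.Agent.Lib.CL43
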