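import Pool.Agent.Lib.CL43.Polar
import Pool.Agent.Lib.CL43.Data

/-! The analytic lemma: weights for every profile. -/

namespace Pool.Agent.Lib.CL43

open Finset

theorem qf_eq {ι κ : Type} [Fintype ι] [Fintype κ] (A : κ → ι → ℝ) (u : ι → ℝ) :
    qf A u = ∑ i, ∑ j, (∑ k, A k i * A k j) * (u i * u j) := by
  unfold qf
  simp only [sq, sum_mul_sum]
  rw [sum_comm]
  refine sum_congr rfl fun i _ => ?_
  rw [sum_comm]
  refine sum_congr rfl fun j _ => ?_
  rw [sum_mul]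
  exact sum_congr rfl fun k _ => by ring

/-- the majorant -/
noncomputable def Ar (k : Option Cc) (i : Io) : ℝ := (Az k i : ℝ) / 100000

theorem bq_le (u : Io → ℝ) (hu : ∀ i, 0 ≤ u i) :
    ∑ i, ∑ j, (Bz i j : ℝ) * (u i * u j) ≤ qf Ar u := by
  have h0 := qf_nonneg (fun k i => (Gz k i : ℝ) / 100000) u
  rw [qf_eq] at h0 ⊢
  refine (le_add_of_nonneg_right h0).trans ?_
  rw [← sum_add_distrib]
  refine sum_le_sum fun i _ => ?_
  rw [← sum_add_distrib]
  refine sum_le_sum fun j _ => ?_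
  rw [← add_mul]
  refine mul_le_mul_of_nonneg_right ?_ (mul_nonneg (hu i) (hu j))
  have h1 : ((10 ^ 10 * Bz i j + ∑ k, Gz k i * Gz k j : ℤ) : ℝ)
      ≤ ((∑ k, Az k i * Az k j : ℤ) : ℝ) := Int.cast_le.2 (chk1 i j)
  push_cast at h1
  simp only [Ar, div_mul_div_comm, ← sum_div]
  linarith

theorem gram (x y z : ℝ) :
    qf Ar (fun i => (x * Lz 0 i + y * Wy i + z * Wz i) / 10000)
      = (x ^ 2 * 556074464442485518 + y ^ 2 * 1099237557757705518 + z ^ 2 * 2461572709600000000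
        + 2 * x * y * 437562317650275121 - 2 * x * z * 134567456788510000
        - 2 * y * z * 1344677989450920000) / 10 ^ 18 := by
  obtain ⟨h1, h2, h3, h4, h5, h6⟩ := chk2
  have c1 := congrArg (Int.cast : ℤ → ℝ) h1
  have c2 := congrArg (Int.cast : ℤ → ℝ) h2
  have c3 := congrArg (Int.cast : ℤ → ℝ) h3
  have c4 := congrArg (Int.cast : ℤ → ℝ) h4
  have c5 := congrArg (Int.cast : ℤ → ℝ) h5
  have c6 := congrArg (Int.cast : ℤ → ℝ) h6
  simp only [Int.cast_sum, Int.cast_mul, Int.cast_ofNat, Int.cast_neg] at c1 c2 c3 c4 c5 c6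
  have e : ∀ k, (∑ i, Ar k i * ((x * Lz 0 i + y * Wy i + z * Wz i) / 10000)) ^ 2
      = (x ^ 2 * ((Xz k : ℝ) * Xz k) + y ^ 2 * ((Yz k : ℝ) * Yz k) + z ^ 2 * ((Zz k : ℝ) * Zz k)
        + 2 * x * y * ((Xz k : ℝ) * Yz k) + 2 * x * z * ((Xz k : ℝ) * Zz k)
        + 2 * y * z * ((Yz k : ℝ) * Zz k)) / 10 ^ 18 := by
    intro k
    have : ∑ i, Ar k i * ((x * Lz 0 i + y * Wy i + z * Wz i) / 10000)
        = (x * Xz k + y * Yz k + z * Zz k) / 10 ^ 9 := by
      simp only [Xz, Yz, Zz, Int.cast_sum, Int.cast_mul, mul_sum, ← sum_add_distrib, sum_div, Ar]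
      exact sum_congr rfl fun i _ => by ring
    rw [this]; ring
  unfold qf
  simp only [e, ← sum_div, sum_add_distrib, ← mul_sum, c1, c2, c3, c4, c5, c6]
  ring

/-- the polar of the ellipsoid -/
def Pol (φ : Io → ℝ) : Prop :=
  ∀ (w : Io → ℝ) (τ : ℝ), 0 < τ → qf Ar w ≤ τ ^ 2 → ∑ i, φ i * w i ≤ τ

/-- the weights of the parent edges -/
noncomputable def yv (φ : Io → ℝ) (t : Cc) : ℝ := 868 / 1000 + ∑ i, φ i * Lz t i / 10000

theorem pol_zero (φ : Io → ℝ) (h : Pol φ) :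
    yv φ 0 ≤ 2 ∧ (yv φ 11 + φ (true, 0)) ^ 2 + (yv φ 11 + φ (true, 0)) * φ (false, 0)
      + φ (false, 0) ^ 2 / 3 + 1 / 1000 ≤ 173 / 100 * yv φ 0 := by
  have key : ∀ x y z τ : ℝ, 0 < τ →
      qf Ar (fun i => (x * Lz 0 i + y * Wy i + z * Wz i) / 10000) ≤ τ ^ 2 →
      x * (yv φ 0 - 868 / 1000) + y * (yv φ 11 - 868 / 1000 + φ (true, 0)) + z * φ (false, 0)
        ≤ τ := by
    intro x y z τ h1 h2
    refine le_trans (le_of_eq ?_) (h _ τ h1 h2)
    have a1 : φ (true, 0) = ∑ i, φ i * (if i = (true, 0) then 10000 else 0 : ℤ) / 10000 := by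
      rw [sum_eq_single (true, 0) (fun i _ c => by simp [c]) (by simp)]; simp
    have a2 : φ (false, 0) = ∑ i, φ i * Wz i / 10000 := by
      rw [sum_eq_single (false, 0) (fun i _ c => by simp [c, Wz]) (by simp)]; simp [Wz]
    rw [a1, a2]
    simp only [yv, add_sub_cancel_left, mul_sum, mul_add, ← sum_add_distrib, Wy, Int.cast_add]
    exact sum_congr rfl fun i _ => by ring
  constructor
  · have := key 1 0 0 1 one_pos (by rw [gram]; norm_num)
    linarith
  · set s := yv φ 11 + φ (true, 0) with hs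
    set a := φ (false, 0) with ha
    set p := s + a / 2 with hp
    set r := s / 2 + a / 3 with hr
    have q0 := qf_nonneg Ar fun i => (-(173 / 100) * Lz 0 i + 2 * p * Wy i + 2 * r * Wz i) / 10000
    have k1 := key (-(173 / 100)) (2 * p) (2 * r) (378 / 1000 + qf Ar (fun i =>
      (-(173 / 100) * Lz 0 i + 2 * p * Wy i + 2 * r * Wz i) / 10000) / (1512 / 1000))
      (by positivity) (by nlinarith [sq_nonneg (378 / 1000 - qf Ar (fun i =>
      (-(173 / 100) * Lz 0 i + 2 * p * Wy i + 2 * r * Wz i) / 10000) / (1512 / 1000))])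
    rw [gram] at k1
    have e1 : yv φ 11 - 868 / 1000 + φ (true, 0) = 4 * p - 6 * r - 868 / 1000 := by
      rw [hp, hr, hs]; ring
    have e2 : a = 12 * r - 6 * p := by rw [hp, hr]; ring
    have e3 : s ^ 2 + s * a + a ^ 2 / 3 = 4 * p ^ 2 - 12 * p * r + 12 * r ^ 2 := by
      rw [hp, hr]; ring
    rw [e1] at k1
    rw [e3]
    clear_value p r
    rw [e2] at k1
    nlinarith [sq_nonneg (41488545808000000 * r - 18466440210981600 * p - 2328017002441223),
      sq_nonneg (1861069737587021885521363200 * p - 1475229711107746737448293263)]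

/-- rotation of the colours -/
def rot (t : Cc) : Io ≃ Io := (Equiv.refl Bool).prodCongr (Equiv.addRight t)

theorem pol_rot (φ : Io → ℝ) (h : Pol φ) (t : Cc) : Pol fun i => φ (rot t i) := by
  intro w τ h1 h2
  rw [← qf_equiv Ar (rot t) (Equiv.addRight t).optionCongr (fun k i => by
    cases k <;> simp [Ar, Az, rot]) w] at h2
  have := h _ τ h1 h2
  rw [← (rot t).sum_comp] at this
  simpa using this

theorem yv_rot (φ : Io → ℝ) (t r : Cc) : yv (fun i => φ (rot t i)) r = yv φ (r + t) := by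
  unfold yv
  rw [← (rot t).sum_comp fun i => φ i * Lz (r + t) i / 10000]
  simp [Lz, rot]

theorem pol_all (φ : Io → ℝ) (h : Pol φ) (t : Cc) :
    yv φ t ≤ 2 ∧ (yv φ (11 + t) + φ (true, t)) ^ 2 + (yv φ (11 + t) + φ (true, t)) * φ (false, t)
      + φ (false, t) ^ 2 / 3 + 1 / 1000 ≤ 173 / 100 * yv φ t := by
  have := pol_zero _ (pol_rot φ h t)
  simp only [yv_rot] at this
  simpa [rot] using this

end Pool.Agent.Lib.CL43
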