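import Pool.Agent.Lib.CL43.Weights
import Pool.Agent.Lib.RC5.Blue

/-! Normal form of a circular colouring and its typing. -/

namespace Pool.Agent.Lib.CL43

open Finset Pool.Agent.Lib.RC5 Relation

variable {n : ℕ}

/-- circular colouring of the multigraph -/
def Circ (m : HE n → HE n) (c : Fin n → Cc) : Prop :=
  ∀ h, 11 ≤ (c h.1 - c (m h).1).val ∧ (c h.1 - c (m h).1).val ≤ 16

/-- joined by an edge -/
def Jn (m : HE n → HE n) (u v : Fin n) : Prop := ∃ i, (m (u, i)).1 = v

theorem roots (m : HE n → HE n) (hm : IsM m) (x : ℝ) (hs : Sparse m 1 x) :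
    ∃ R : Finset (Fin n), (R.card : ℝ) * x ≤ n ∧ ∀ u, ∃ r ∈ R, ReflTransGen (Jn m) u r := by
  have sy : ∀ u v, Jn m u v → Jn m v u := by
    rintro u v ⟨i, rfl⟩
    exact ⟨(m (u, i)).2, by rw [Prod.mk.eta, (hm _).1]⟩
  have sy' : ∀ {u v}, ReflTransGen (Jn m) u v → ReflTransGen (Jn m) v u := by
    intro u v h
    induction h with
    | refl => exact ReflTransGen.refl
    | tail _ h ih => exact ih.head (sy _ _ h)
  let s : Setoid (Fin n) := ⟨ReflTransGen (Jn m), fun _ => ReflTransGen.refl, sy', .trans⟩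
  refine ⟨univ.image fun u => (Quotient.mk s u).out, ?_, fun u =>
    ⟨_, mem_image_of_mem _ (mem_univ u), sy' (Quotient.mk_out (s := s) u)⟩⟩
  have e := card_eq_sum_card_image (fun u => (Quotient.mk s u).out) univ
  rw [card_univ, Fintype.card_fin] at e
  rw [← nsmul_eq_mul]
  refine (card_nsmul_le_sum _ (fun r => ((univ.filter fun u => (Quotient.mk s u).out = r).card : ℝ))
    x fun r hr => ?_).trans (le_of_eq (by exact_mod_cast e.symm))
  by_contra c
  obtain ⟨u, _, hu⟩ := mem_image.1 hr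
  have h1 := hs _ ⟨u, mem_filter.2 ⟨mem_univ u, hu⟩⟩ (not_le.1 c).le
  have h2 : inn m (univ.filter fun u => (Quotient.mk s u).out = r)
      = ((univ.filter fun u => (Quotient.mk s u).out = r) ×ˢ (univ : Finset (Fin 3))).card := by
    unfold inn
    congr 1
    ext h
    simp only [mem_sel, mem_univ, true_and, mem_filter, mem_product, and_true]
    refine ⟨fun a => a.1, fun a => ⟨a, ?_⟩⟩
    rw [← a, Quotient.sound (s := s) (a := h.1) (b := (m h).1) (ReflTransGen.single ⟨h.2, rfl⟩)]
  rw [h2, card_product, card_univ, Fintype.card_fin] at h1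
  omega

theorem normal (m : HE n → HE n) (hm : IsM m) (f : Fin n → Cc) (hf : Circ m f)
    (R : Finset (Fin n)) (hR : ∀ u, ∃ r ∈ R, ReflTransGen (Jn m) u r) :
    ∃ c, Circ m c ∧ ∀ v, v ∉ R → ∃ i, c (m (v, i)).1 = c v - 11 := by
  set St : Fin n × ℕ → Fin n × ℕ → Prop := fun a b =>
    ∃ i, (m (a.1, i)).1 = b.1 ∧ a.2 + 11 = b.2 + (f a.1 - f b.1).val with hSt
  set P : Fin n → Set ℕ := fun u => {k | ∃ r ∈ R, ReflTransGen St (u, k) (r, 0)} with hP
  have step : ∀ (h : HE n) k, k ∈ P (m h).1 → k + (f h.1 - f (m h).1).val - 11 ∈ P h.1 := by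
    rintro h k ⟨r, hr, hk⟩
    have := (hf h).1
    exact ⟨r, hr, hk.head ⟨h.2, rfl, by simp only; omega⟩⟩
  have ne : ∀ u, (P u).Nonempty := by
    intro u
    obtain ⟨r, hr, h⟩ := hR u
    induction h using ReflTransGen.head_induction_on with
    | refl => exact ⟨0, r, hr, ReflTransGen.refl⟩
    | @head a b h _ ih =>
      obtain ⟨i, rfl⟩ := h
      obtain ⟨k, hk⟩ := ih
      exact ⟨_, step (a, i) k hk⟩
  have val : ∀ h : HE n, sInf (P h.1) + 11 ≤ sInf (P (m h).1) + (f h.1 - f (m h).1).val := by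
    intro h
    have := Nat.sInf_le (step h _ (Nat.sInf_mem (ne _)))
    have := (hf h).1
    omega
  have neg : ∀ a : Cc, 11 ≤ a.val → a.val + (-a).val = 27 := by decide
  have dif : ∀ (h : HE n) (j : ℕ), j + sInf (P h.1) = sInf (P (m h).1) + (f h.1 - f (m h).1).val →
      f h.1 - (sInf (P h.1) : ℕ) - (f (m h).1 - (sInf (P (m h).1) : ℕ)) = (j : Cc) := by
    intro h j e
    have := congrArg (Nat.cast : ℕ → Cc) e
    rw [Nat.cast_add, Nat.cast_add, ZMod.natCast_zmod_val] at this
    linear_combination -this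
  refine ⟨fun v => f v - (sInf (P v) : ℕ), fun h => ?_, fun v hv => ?_⟩
  · have a1 := val h
    have a2 := val (m h)
    have a3 := neg _ (hf h).1
    rw [(hm h).1] at a2
    rw [neg_sub] at a3
    have a4 := dif h (sInf (P (m h).1) + (f h.1 - f (m h).1).val - sInf (P h.1)) (by omega)
    simp only
    rw [a4, ZMod.val_natCast, Nat.mod_eq_of_lt (by omega)]
    omega
  · obtain ⟨r, hr, h⟩ := Nat.sInf_mem (ne v)
    rcases h.cases_head with e | ⟨⟨w, k⟩, ⟨i, h1, h2⟩, h3⟩
    · obtain rfl : v = r := congrArg Prod.fst e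
      exact absurd hr hv
    · simp only at h1 h2
      subst h1
      have a1 : sInf (P (m (v, i)).1) ≤ k := Nat.sInf_le ⟨r, hr, h3⟩
      have a2 := val (v, i)
      have a3 := dif (v, i) 11 (by simp only at a2 ⊢; omega)
      refine ⟨i, ?_⟩
      simp only [Nat.cast_ofNat] at a3 ⊢
      linear_combination -a3

/-- a colour and three kinds -/
abbrev Sr : Type := Cc × Fin 4 × Fin 4 × Fin 4

/-- the type of a half-edge -/
def tyx (x : Fin n → Sr) (h : HE n) : Ty :=
  (![(x h.1).2.1, (x h.1).2.2.1, (x h.1).2.2.2] h.2, (x h.1).1)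

/-- the weight of a bounded number of roots -/
noncomputable def eK : ℝ := (1 / 1728000) ^ 256000

theorem eK_pos : 0 < eK := pow_pos (by norm_num) _

theorem num_kind (ty : HE n → Ty) (k : Fin 4) :
    ∑ c, num ty (k, c) = (univ.filter fun h => (ty h).1 = k).card := by
  rw [card_eq_sum_card_fiberwise (f := fun h => (ty h).2) (t := univ) fun _ _ => mem_univ _]
  refine sum_congr rfl fun c _ => ?_
  rw [num, sel_eq, filter_filter]
  congr 1
  ext h
  simp [Prod.ext_iff]

theorem typing (m : HE n → HE n) (hm : IsM m) (c : Fin n → Cc) (hc : Circ m c)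
    (R : Finset (Fin n)) (hK : R.card ≤ 256000)
    (hR : ∀ v, v ∉ R → ∃ i, c (m (v, i)).1 = c v - 11) :
    ∃ x : Fin n → Sr, (∀ h, Cp (tyx x h) (tyx x (m h))) ∧ Adm n (num (tyx x)) ∧
      eK ≤ ∏ v, wt (x v).2.1 (x v).2.2.1 (x v).2.2.2 := by
  classical
  set T : HE n → Prop := fun h => c (m h).1 = c h.1 - 11 with hT
  set D : HE n → Prop := fun h => h.1 ∉ R ∧ T h ∧ ∀ j < h.2, ¬ T (h.1, j) with hD
  set kd : HE n → Fin 4 := fun h => if D h then 0 else if D (m h) then 1 else if T h then 2 else 3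
    with hkd
  have TT : ∀ h, T h → ¬ T (m h) := by
    intro h h1 h2
    simp only [hT, (hm h).1] at h1 h2
    have : (22 : Cc) = 0 := by linear_combination h1 + h2
    exact absurd this (by decide)
  have k0 : ∀ h, kd h = 0 ↔ D h := fun h => by
    simp only [hkd]; split_ifs with a <;> simp [a]
  have k1 : ∀ h, kd h = 1 ↔ D (m h) := fun h => by
    simp only [hkd]; split_ifs with a b
    · simpa using fun b : D (m h) => TT h a.2.1 b.2.1
    all_goals simp [b]
  have k2 : ∀ h, kd h = 2 → T h := fun h => by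
    simp only [hkd]; split_ifs with a b d
    exacts [by simp, by simp, fun _ => d, by simp]
  have e : ∀ h, tyx (fun v => (c v, kd (v, 0), kd (v, 1), kd (v, 2))) h = (kd h, c h.1) := by
    rintro ⟨v, i⟩
    fin_cases i <;> rfl
  refine ⟨fun v => (c v, kd (v, 0), kd (v, 1), kd (v, 2)), fun h => ?_, ?_, ?_⟩
  · rw [e, e]
    have a1 := TT h
    have a2 : T (m h) ↔ c h.1 = c (m h).1 - 11 := by simp only [hT, (hm h).1]
    have a3 : ∀ a b : Cc, 11 ≤ (a - b).val ∧ (a - b).val ≤ 16 → b ≠ a - 11 → a ≠ b - 11 →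
        12 ≤ (a - b).val ∧ (a - b).val ≤ 15 := by decide
    by_cases d1 : D h
    · exact Or.inl ⟨(k0 h).2 d1, (k1 _).2 (by rwa [(hm h).1]), d1.2.1⟩
    by_cases d2 : D (m h)
    · exact Or.inr (Or.inl ⟨(k1 h).2 d2, (k0 _).2 d2, a2.1 d2.2.1⟩)
    refine Or.inr (Or.inr ?_)
    by_cases t1 : T h
    · exact Or.inl ⟨by simp [hkd, d1, d2, t1], by simp [hkd, d1, d2, a1 t1, (hm h).1], t1⟩
    by_cases t2 : T (m h)
    · exact Or.inr (Or.inl ⟨by simp [hkd, d1, d2, t1], by simp [hkd, d1, d2, t2, (hm h).1],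
        a2.1 t2⟩)
    · exact Or.inr (Or.inr ⟨by simp [hkd, d1, d2, t1], by simp [hkd, d1, d2, t2, (hm h).1],
        a3 _ _ (hc h) t1 fun a => t2 (a2.2 a)⟩)
  · have ex : ∀ v, v ∉ R → ∃ i, D (v, i) := by
      intro v hv
      obtain ⟨i, h1, h2⟩ := WellFounded.has_min wellFounded_lt {i | T (v, i)} (hR v hv)
      exact ⟨i, hv, h1, fun j hj a => h2 j a hj⟩
    have c0 : (univ.filter fun h => kd h = 0).card ≤ n := by
      refine (card_le_card_of_injOn Prod.fst (fun _ _ => mem_coe.2 (mem_univ _)) ?_).trans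
        (card_fin n).le
      rintro ⟨v, i⟩ h1 ⟨w, j⟩ h2 rfl
      simp only [coe_filter, mem_univ, true_and, Set.mem_setOf_eq, k0] at h1 h2
      rcases lt_trichotomy i j with a | a | a
      · exact absurd h1.2.1 (h2.2.2 i a)
      · rw [a]
      · exact absurd h2.2.1 (h1.2.2 j a)
    have c1 : n ≤ (univ.filter fun h => kd h = 0).card + R.card := by
      have : (univ : Finset (Fin n)) ⊆ (univ.filter fun h => kd h = 0).image Prod.fst ∪ R := by
        intro v _
        by_cases hv : v ∈ R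
        · exact mem_union_right _ hv
        · obtain ⟨i, hi⟩ := ex v hv
          exact mem_union_left _ (mem_image.2 ⟨(v, i), by simpa [k0] using hi, rfl⟩)
      have a := (card_le_card this).trans (card_union_le _ _)
      rw [card_fin] at a
      exact a.trans (Nat.add_le_add_right card_image_le _)
    have c2 : (univ.filter fun h => kd h = 1).card = (univ.filter fun h => kd h = 0).card :=
      card_nbij' m m (fun h => by simp [k0, k1]) (fun h => by simp [k0, k1, (hm h).1])
        (fun h _ => (hm h).1) fun h _ => (hm h).1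
    have c3 := card_eq_sum_card_fiberwise (f := kd) (s := univ) (t := univ) fun _ _ => mem_univ _
    rw [Fin.sum_univ_four, card_univ, Fintype.card_prod, Fintype.card_fin, Fintype.card_fin] at c3
    simp only [Adm, num_kind, e]
    omega
  · have a : ∀ v, (if v ∈ R then (1 / 1728000 : ℝ) else 1)
        = wt (kd (v, 0)) (kd (v, 1)) (kd (v, 2)) := by
      intro v
      have b0 := mt (k2 (v, 0))
      have b1 := mt (k2 (v, 1))
      by_cases hv : v ∈ R
      · simp [wt, k0, hD, hv]
      · obtain ⟨i, hi⟩ := hR v hv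
        by_cases t0 : T (v, 0)
        · have : ∀ j : Fin 3, 0 < j → ¬ D (v, j) := fun j hj a => a.2.2 0 hj t0
          have d0 : D (v, 0) := ⟨hv, t0, fun j hj => absurd hj (by simp)⟩
          simp [wt, k0, hv, d0, this]
        by_cases t1 : T (v, 1)
        · have d0 : ¬ D (v, 0) := fun a => t0 a.2.1
          have d1 : D (v, 1) := ⟨hv, t1, fun j hj => by
            have : j = 0 := by simp only at hj; omega
            rwa [this]⟩
          have d2 : ¬ D (v, 2) := fun a => a.2.2 1 (by simp) t1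
          simp [wt, k0, hv, d0, d1, d2, b0 t0]
        · have d0 : ¬ D (v, 0) := fun a => t0 a.2.1
          have d1 : ¬ D (v, 1) := fun a => t1 a.2.1
          have d2 : D (v, 2) := by
            refine ⟨hv, ?_, fun j hj => ?_⟩
            · fin_cases i
              exacts [absurd hi t0, absurd hi t1, hi]
            · fin_cases j
              exacts [t0, t1, absurd hj (by simp)]
          simp [wt, k0, hv, d0, d1, d2, b0 t0, b1 t1]
    simp only [← a]
    rw [prod_ite_mem, univ_inter, prod_const]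
    exact pow_le_pow_of_le_one (by norm_num) (by norm_num) hK

end Pool.Agent.Lib.CL43
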