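import Pool.Agent.Lib.CL43.Match
import Pool.Agent.Lib.CL43.Normal
import Pool.Agent.Lib.RC5.B_BALL
import Pool.Agent.Lib.RC5.B_G1
import Pool.Agent.Lib.RC5.B_G2
import Pool.Agent.Lib.RC5.B_G3
import Pool.Agent.Lib.RC5.B_G4
import Pool.Agent.Lib.RC5.B_OM
import Pool.Agent.Lib.RC5.B_SP
import Pool.Agent.Lib.RC5.B_SP1
import Pool.Agent.Lib.RC5.B_SUB
import Pool.Agent.Lib.RC5.B_TRANS

/-! The first moment bound and the transfer to graphs. -/

namespace Pool.Agent.Lib.CL43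

open Finset Pool.Agent.Lib.RC5 Filter Topology

theorem profile (k : ℕ) (hk : 2000 * 512054 ≤ 2 * k) (N : Ty → ℕ) :
    ∑ x ∈ sel (univ : Finset (Fin (2 * k) → Sr)) fun x => Adm (2 * k) N ∧ num (tyx x) = N ∧
        eK ≤ ∏ v, wt (x v).2.1 (x v).2.2.1 (x v).2.2.2,
      ((sel (Om (HE (2 * k))) fun m => ∀ h, Cp (tyx x h) (tyx x (m h))).card : ℝ)
      ≤ (Om (HE (2 * k))).card * (3 * (6 * k + 1)) ^ 108 * (9999 / 10000) ^ k / eK := by
  have e0 := eK_pos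
  by_cases hN : Adm (2 * k) N
  swap
  · rw [sum_eq_zero fun x hx => absurd (mem_sel.1 hx).2.1 hN]
    positivity
  obtain ⟨z, u, z0, u0, h1, h2, h3⟩ := weights _ hk N hN
  set g : Sr → ℝ := fun s => wt s.2.1 s.2.2.1 s.2.2.2
    * (z (s.2.1, s.1) * z (s.2.2.1, s.1) * z (s.2.2.2, s.1)) with hg
  have g0 : ∀ s, 0 ≤ g s := fun s =>
    mul_nonneg (wt_nonneg _ _ _) (mul_nonneg (mul_nonneg (z0 _) (z0 _)) (z0 _))
  set C : ℝ := (Om (HE (2 * k))).card * (3 * (6 * k + 1)) ^ 108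
    * ((2 + (2001 / 2000) ^ 2) / 9) ^ (3 * k) / eK with hC
  have C0 : 0 ≤ C := by positivity
  have L0 : 0 ≤ ∑ s, ∑ t, if Cp s t then u s * u t else 0 :=
    sum_nonneg fun s _ => sum_nonneg fun t _ => by
      split_ifs
      exacts [mul_nonneg (u0 _) (u0 _), le_rfl]
  calc _ ≤ ∑ x ∈ sel (univ : Finset (Fin (2 * k) → Sr)) fun x => Adm (2 * k) N ∧ num (tyx x) = N ∧
        eK ≤ ∏ v, wt (x v).2.1 (x v).2.2.1 (x v).2.2.2, C * ∏ v, g (x v) := by
        refine sum_le_sum fun x hx => ?_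
        obtain ⟨-, -, a1, a2⟩ := mem_sel.1 hx
        have a3 := matching (3 * k) (by simp; ring) (tyx x) Cp z u z0 u0 fun t => by
          rw [a1]; refine (h1 t).trans (le_of_eq ?_); push_cast; ring
        have a4 : ∏ h, z (tyx x h)
            = ∏ v, z ((x v).2.1, (x v).1) * z ((x v).2.2.1, (x v).1) * z ((x v).2.2.2, (x v).1) := by
          rw [Fintype.prod_prod_type]
          exact prod_congr rfl fun v _ => by rw [Fin.prod_univ_three]; rfl
        have a5 : Fintype.card Ty = 108 := by simp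
        have a6 : (2 * ((3 * k : ℕ) : ℝ) + 1) = 6 * k + 1 := by push_cast; ring
        have a7 : 0 ≤ ∏ h, z (tyx x h) := prod_nonneg fun _ _ => z0 _
        rw [a5, a6] at a3
        simp only [hg]
        rw [prod_mul_distrib, ← a4]
        calc _ ≤ _ := a3
          _ ≤ (Om (HE (2 * k))).card * (3 * (6 * k + 1)) ^ 108
              * ((2 + (2001 / 2000) ^ 2) / 9) ^ (3 * k) * ∏ h, z (tyx x h) := by gcongr
          _ = C * (eK * ∏ h, z (tyx x h)) := by rw [hC]; field_simp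
          _ ≤ _ := by gcongr
    _ ≤ ∑ x : Fin (2 * k) → Sr, C * ∏ v, g (x v) :=
        sum_le_sum_of_subset_of_nonneg (subset_univ _) fun _ _ _ =>
          mul_nonneg C0 (prod_nonneg fun _ _ => g0 _)
    _ = C * (∑ s, g s) ^ (2 * k) := by rw [← mul_sum, Fintype.sum_pow]
    _ ≤ C * (5191 / 1000) ^ (2 * k) := by
        refine mul_le_mul_of_nonneg_left (pow_le_pow_left₀ (sum_nonneg fun _ _ => g0 _) ?_ _) C0
        simpa only [hg, Fintype.sum_prod_type] using h3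
    _ = (Om (HE (2 * k))).card * (3 * (6 * k + 1)) ^ 108
          * (((2 + (2001 / 2000) ^ 2) / 9) ^ 3 * (5191 / 1000) ^ 2) ^ k / eK := by
        rw [hC, mul_pow (_ ^ 3), ← pow_mul, ← pow_mul]; ring
    _ ≤ _ := by gcongr; norm_num

theorem moment (k : ℕ) (hk : 2000 * 512054 ≤ 2 * k) :
    ((sel (Om (HE (2 * k))) fun m => Sparse m 1 ((1 / 256000) ^ 1 * (2 * k : ℕ)) ∧
        ∃ f, Circ m f).card : ℝ)
      ≤ (6 * k + 1) ^ 108
        * ((Om (HE (2 * k))).card * (3 * (6 * k + 1)) ^ 108 * (9999 / 10000) ^ k / eK) := by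
  classical
  set B := Fintype.piFinset fun _ : Ty => range (6 * k + 1) with hB
  have h1 : (sel (Om (HE (2 * k))) fun m => Sparse m 1 ((1 / 256000) ^ 1 * (2 * k : ℕ)) ∧
        ∃ f, Circ m f) ⊆ B.biUnion fun N =>
      (sel (univ : Finset (Fin (2 * k) → Sr)) fun x => Adm (2 * k) N ∧ num (tyx x) = N ∧
        eK ≤ ∏ v, wt (x v).2.1 (x v).2.2.1 (x v).2.2.2).biUnion fun x =>
      sel (Om (HE (2 * k))) fun m => ∀ h, Cp (tyx x h) (tyx x (m h)) := by
    intro m hm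
    obtain ⟨m1, m2, f, hf⟩ := mem_sel.1 hm
    have m3 := (mem_sel.1 m1).2
    obtain ⟨R, r1, r2⟩ := roots m m3 _ m2
    obtain ⟨c, c1, c2⟩ := normal m m3 f hf R r2
    have k0 : (0 : ℝ) < (2 * k : ℕ) := by exact_mod_cast (by omega : 0 < 2 * k)
    have r3 : (R.card : ℝ) ≤ (256000 : ℕ) := by push_cast at *; nlinarith
    obtain ⟨x, x1, x2, x3⟩ := typing m m3 c c1 R (by exact_mod_cast r3) c2
    refine mem_biUnion.2 ⟨num (tyx x), Fintype.mem_piFinset.2 fun t => mem_range.2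
      (Nat.lt_succ_of_le ((card_le_univ _).trans (by simp; omega))),
      mem_biUnion.2 ⟨x, mem_sel.2 ⟨mem_univ _, x2, rfl, x3⟩, mem_sel.2 ⟨m1, x1⟩⟩⟩
  have h2 := (card_le_card h1).trans (card_biUnion_le.trans (sum_le_sum fun _ _ => card_biUnion_le))
  refine le_trans (by exact_mod_cast h2) ((sum_le_card_nsmul B _ _ fun N _ => profile k hk N).trans
    (le_of_eq ?_))
  rw [hB, Fintype.card_piFinset, prod_const, card_range, card_univ,
    show Fintype.card Ty = 108 by simp, nsmul_eq_mul]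
  push_cast
  rfl

theorem aas (ε : ℝ) (hε : 0 < ε) : ∃ n0 : ℕ, ∀ n, n0 ≤ n → Even n →
    ((sel (Om (HE n)) fun m => ∃ f, Circ m f).card : ℝ) ≤ ε * (Om (HE n)).card := by
  classical
  have e0 := eK_pos
  obtain ⟨n1, h1⟩ := st_SP (st_SP1 st_SUB) 1 le_rfl (ε / 2) (half_pos hε)
  have t1 := (tendsto_pow_const_mul_const_pow_of_abs_lt_one 216
    (show |(9999 / 10000 : ℝ)| < 1 by rw [abs_of_pos] <;> norm_num)).const_mul
    (7 ^ 108 * 21 ^ 108 / eK)
  rw [mul_zero] at t1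
  obtain ⟨n2, h2⟩ := eventually_atTop.1 (t1.eventually (gt_mem_nhds (half_pos hε)))
  refine ⟨n1 + 2 * n2 + 2000 * 512054, fun n hn he => ?_⟩
  obtain ⟨k, rfl⟩ := even_iff_exists_two_mul.1 he
  have a1 := h1 (2 * k) (by omega)
  have a2 := moment k (by omega)
  have a3 := (h2 k (by omega)).le
  have k1 : (1 : ℝ) ≤ k := by exact_mod_cast (by omega : 1 ≤ k)
  have a4 : (sel (Om (HE (2 * k))) fun m => ∃ f, Circ m f) ⊆
      (sel (Om (HE (2 * k))) fun m => ¬ Sparse m 1 ((1 / 256000) ^ 1 * (2 * k : ℕ))) ∪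
      sel (Om (HE (2 * k))) fun m => Sparse m 1 ((1 / 256000) ^ 1 * (2 * k : ℕ)) ∧
        ∃ f, Circ m f := by
    intro m hm
    simp only [mem_union, mem_sel] at hm ⊢
    tauto
  have a5 := (card_le_card a4).trans (card_union_le _ _)
  have a6 : (6 * (k : ℝ) + 1) ^ 108
      * ((Om (HE (2 * k))).card * (3 * (6 * k + 1)) ^ 108 * (9999 / 10000) ^ k / eK)
      ≤ ε / 2 * (Om (HE (2 * k))).card :=
    calc _ ≤ (7 * (k : ℝ)) ^ 108
          * ((Om (HE (2 * k))).card * (21 * k) ^ 108 * (9999 / 10000) ^ k / eK) := by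
          have b1 : 6 * (k : ℝ) + 1 ≤ 7 * k := by linarith
          have b2 : 3 * (6 * (k : ℝ) + 1) ≤ 21 * k := by linarith
          exact mul_le_mul (pow_le_pow_left₀ (by positivity) b1 _) (div_le_div_of_nonneg_right
            (mul_le_mul_of_nonneg_right (mul_le_mul_of_nonneg_left
              (pow_le_pow_left₀ (by positivity) b2 _) (Nat.cast_nonneg _)) (by positivity)) e0.le)
            (by positivity) (by positivity)
      _ = 7 ^ 108 * 21 ^ 108 / eK * ((k : ℝ) ^ 216 * (9999 / 10000) ^ k)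
          * (Om (HE (2 * k))).card := by
          rw [mul_pow, mul_pow, show (216 : ℕ) = 108 + 108 from rfl, pow_add]
          generalize (7 : ℝ) ^ 108 = a
          generalize (21 : ℝ) ^ 108 = b
          generalize (k : ℝ) ^ 108 = d
          ring
      _ ≤ _ := by gcongr
  have a7 := (Nat.cast_le (α := ℝ)).2 a5
  rw [Nat.cast_add] at a7
  exact a7.trans ((add_le_add a1 (a2.trans a6)).trans (by rw [← add_mul, add_halves]))

theorem main (g : ℕ) (hg : 3 ≤ g) (ε : ℝ) (hε : 0 < ε) : ∃ n0 : ℕ, ∀ n, n0 ≤ n → Even n →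
    0 < {G : SimpleGraph (Fin n) |
      (∀ v, (G.neighborSet v).ncard = 3) ∧ (g : ℕ∞) ≤ G.egirth}.ncard ∧
    ({G : SimpleGraph (Fin n) | (∀ v, (G.neighborSet v).ncard = 3) ∧ (g : ℕ∞) ≤ G.egirth ∧
        ∃ f : Fin n → ℤ, (∀ v, 0 ≤ f v ∧ f v < 27) ∧
          ∀ u v, G.Adj u v → 11 ≤ |f u - f v| ∧ |f u - f v| ≤ 16}.ncard : ℝ)
      ≤ ε * {G : SimpleGraph (Fin n) |
        (∀ v, (G.neighborSet v).ncard = 3) ∧ (g : ℕ∞) ≤ G.egirth}.ncard := by
  obtain ⟨c, c0, n1, hn1⟩ := st_G3 st_BALL (st_G1 st_SUB) st_G2 g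
  obtain ⟨n2, hn2⟩ := aas (ε * c) (mul_pos hε c0)
  refine ⟨max n1 n2, fun n hn hev => ?_⟩
  have a1 := hn1 n (le_trans (le_max_left _ _) hn)
  have a2 := hn2 n (le_trans (le_max_right _ _) hn) hev
  obtain ⟨k, hk⟩ := hev
  have a3 := (st_OM (HE n) (3 * k) (by simp [hk]; ring)).1
  have t1 := st_TRANS n fun G => (g : ℕ∞) ≤ G.egirth
  have t2 := st_TRANS n fun G => (g : ℕ∞) ≤ G.egirth ∧ ∃ f : Fin n → ℤ,
    (∀ v, 0 ≤ f v ∧ f v < 27) ∧ ∀ u v, G.Adj u v → 11 ≤ |f u - f v| ∧ |f u - f v| ≤ 16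
  have b1 : (sel (Om (HE n)) fun m => ∀ h, ¬ OnCyc m g h).card
      ≤ (sel (Om (HE n)) fun m => Simple m ∧ (g : ℕ∞) ≤ (Gr m).egirth).card := by
    refine card_le_card fun m hm => ?_
    rw [mem_sel] at hm ⊢
    exact ⟨hm.1, (st_G4 n g m (mem_sel.1 hm.1).2).1 hg hm.2⟩
  have b2 : (sel (Om (HE n)) fun m => Simple m ∧ (g : ℕ∞) ≤ (Gr m).egirth ∧ ∃ f : Fin n → ℤ,
        (∀ v, 0 ≤ f v ∧ f v < 27) ∧
          ∀ u v, (Gr m).Adj u v → 11 ≤ |f u - f v| ∧ |f u - f v| ≤ 16).card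
      ≤ (sel (Om (HE n)) fun m => ∃ f, Circ m f).card := by
    refine card_le_card fun m hm => ?_
    rw [mem_sel] at hm ⊢
    obtain ⟨m1, m2, -, f, -, hf⟩ := hm
    refine ⟨m1, fun v => (f v : Cc), fun h => ?_⟩
    have d1 := hf h.1 (m h).1 ((T4.adj_iff (mem_sel.1 m1).2 m2 _ _).2 ⟨h.2, rfl⟩)
    have d2 := ZMod.val_intCast (n := 27) (f h.1 - f (m h).1)
    rw [Int.cast_sub] at d2
    rcases abs_cases (f h.1 - f (m h).1) with d3 | d3 <;> rw [d3.1] at d1 <;> simp only <;> omega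
  rw [t1] at b1
  rw [t2] at b2
  generalize {G : SimpleGraph (Fin n) |
    (∀ v, (G.neighborSet v).ncard = 3) ∧ (g : ℕ∞) ≤ G.egirth}.ncard = A at b1 ⊢
  generalize {G : SimpleGraph (Fin n) | (∀ v, (G.neighborSet v).ncard = 3) ∧ (g : ℕ∞) ≤ G.egirth ∧
    ∃ f : Fin n → ℤ, (∀ v, 0 ≤ f v ∧ f v < 27) ∧
      ∀ u v, G.Adj u v → 11 ≤ |f u - f v| ∧ |f u - f v| ≤ 16}.ncard = B at b2 ⊢
  have c1 : c * ((Om (HE n)).card : ℝ) ≤ 6 ^ n * (A : ℝ) := a1.trans (by exact_mod_cast b1)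
  have c2 : (6 : ℝ) ^ n * (B : ℝ) ≤ ε * c * ((Om (HE n)).card : ℝ) :=
    le_trans (by exact_mod_cast b2) a2
  have c3 : (0 : ℝ) < ((Om (HE n)).card : ℝ) := by exact_mod_cast a3
  have p6 : (0 : ℝ) < 6 ^ n := by positivity
  constructor
  · have : (0 : ℝ) < 6 ^ n * (A : ℝ) := lt_of_lt_of_le (mul_pos c0 c3) c1
    exact_mod_cast (mul_pos_iff_of_pos_left p6).1 this
  · refine le_of_mul_le_mul_left (c2.trans ?_) p6
    have := mul_le_mul_of_nonneg_left c1 hε.le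
    linarith

end Pool.Agent.Lib.CL43
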