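import Pool.Agent.Lib.RC5.B_STI

/-! The number of perfect matchings that respect a relation between types. -/

namespace Pool.Agent.Lib.CL43

open Finset Pool.Agent.Lib.RC5

variable {α T : Type} [Fintype α] [DecidableEq α] [Fintype T] [DecidableEq T]

omit [DecidableEq α] in
theorem prod_num (ty : α → T) (f : T → ℝ) : ∏ h, f (ty h) = ∏ t, f t ^ num ty t := by
  rw [← prod_fiberwise' univ ty f]
  refine prod_congr rfl fun t _ => ?_
  rw [prod_const, num, sel_eq]

theorem fact_le (N : ℕ) (M x : ℝ) (hM : (N : ℝ) ≤ M) (hx : (N : ℝ) ≤ x) :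
    (N.factorial : ℝ) ≤ 3 * (M + 1) * (x / Real.exp 1) ^ N := by
  have h1 := Real.exp_le_exp.2 (st_STI N).2
  have h0 : (0 : ℝ) ≤ N := Nat.cast_nonneg N
  rw [Real.exp_log (by exact_mod_cast N.factorial_pos), Real.exp_add, Real.exp_add,
    Real.exp_log (by positivity)] at h1
  have h2 : Real.exp ((N : ℝ) * Real.log N - N) = ((N : ℝ) / Real.exp 1) ^ N := by
    rcases Nat.eq_zero_or_pos N with h | h
    · subst h; simp
    · rw [Real.exp_sub, Real.exp_nat_mul, Real.exp_log (by exact_mod_cast h), div_pow,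
        ← Real.exp_nat_mul, mul_one]
  rw [h2] at h1
  have h3 : Real.exp 1 ≤ 3 := Real.exp_one_lt_d9.le.trans (by norm_num)
  have h4 : 0 ≤ x := h0.trans hx
  have h5 : 0 ≤ M := h0.trans hM
  calc (N.factorial : ℝ) ≤ ((N : ℝ) / Real.exp 1) ^ N * (N + 1) * Real.exp 1 := h1
    _ ≤ (x / Real.exp 1) ^ N * (M + 1) * 3 := by gcongr
    _ = _ := by ring

theorem fibre_le (ty τ : α → T) :
    (univ.filter fun σ : Equiv.Perm α => ty ∘ σ = τ).card ≤ ∏ t, (num ty t).factorial := by
  rcases (univ.filter fun σ : Equiv.Perm α => ty ∘ σ = τ).eq_empty_or_nonempty with h | ⟨σ0, h⟩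
  · simp [h]
  have h0 : ty ∘ σ0 = τ := by simpa using h
  have h1 := DomMulAct.stabilizer_card ty
  rw [Fintype.card_subtype] at h1
  simp only [Fintype.card_subtype] at h1
  have h2 : ∏ t, (num ty t).factorial = ∏ t, (univ.filter fun a => ty a = t).card.factorial :=
    prod_congr rfl fun t _ => by rw [num, sel_eq]
  rw [h2, ← h1]
  refine card_le_card_of_injOn (fun σ => σ * σ0⁻¹) (fun σ hσ => ?_) fun σ _ σ' _ e =>
    mul_right_cancel e
  have h3 : ty ∘ σ = τ := by simpa using hσ
  simp only [coe_filter, mem_univ, true_and, Set.mem_setOf_eq]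
  funext a
  have := congrFun (h3.trans h0.symm) (σ0⁻¹ a)
  simpa using this

theorem pair_le (k : ℕ) (hk : Fintype.card α = 2 * k) (m : α → α) (hm : IsM m) (R : T → T → Prop)
    [DecidableRel R] (u : T → ℝ) (hu : ∀ t, 0 ≤ u t) :
    ∑ τ : α → T, (if ∀ h, R (τ h) (τ (m h)) then ∏ h, u (τ h) else 0)
      ≤ (∑ s, ∑ t, if R s t then u s * u t else 0) ^ k := by
  set e := Fintype.equivFin α
  set S : Finset α := univ.filter fun h => e h < e (m h) with hS
  have inj : Function.Injective m := fun a b h => by rw [← (hm a).1, h, (hm b).1]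
  have hU : univ = S ∪ S.image m := by
    ext h
    simp only [mem_univ, mem_union, mem_image, hS, mem_filter, true_and, true_iff]
    rcases lt_trichotomy (e h) (e (m h)) with c | c | c
    · exact Or.inl c
    · exact absurd (e.injective c).symm (hm h).2
    · exact Or.inr ⟨m h, by rwa [(hm h).1], (hm h).1⟩
  have hD : Disjoint S (S.image m) := by
    rw [disjoint_left]
    intro h h1 h2
    simp only [mem_image, hS, mem_filter, mem_univ, true_and] at h1 h2
    obtain ⟨a, ha, rfl⟩ := h2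
    rw [(hm a).1] at h1
    exact lt_asymm ha h1
  have hc : Fintype.card S = k := by
    have := congrArg card hU
    rw [card_univ, card_union_of_disjoint hD, card_image_of_injective _ inj, hk] at this
    rw [Fintype.card_coe]; omega
  set g : T × T → ℝ := fun p => if R p.1 p.2 then u p.1 * u p.2 else 0 with hg
  have g0 : ∀ p, 0 ≤ g p := fun p => by
    simp only [hg]; split_ifs
    exacts [mul_nonneg (hu _) (hu _), le_rfl]
  have e1 : (∑ s, ∑ t, if R s t then u s * u t else 0) ^ k = ∑ f : S → T × T, ∏ s, g (f s) := by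
    rw [← Fintype.prod_sum fun (_ : S) (p : T × T) => g p, prod_const, card_univ, hc,
      Fintype.sum_prod_type]
  set φ : (α → T) → S → T × T := fun τ s => (τ s, τ (m s)) with hφ
  have φi : Function.Injective φ := by
    intro τ τ' h
    funext a
    have ha : a ∈ S ∪ S.image m := hU ▸ mem_univ a
    rcases mem_union.1 ha with c | c
    · exact congrArg Prod.fst (congrFun h ⟨a, c⟩)
    · obtain ⟨b, hb, rfl⟩ := mem_image.1 c
      exact congrArg Prod.snd (congrFun h ⟨b, hb⟩)
  rw [e1]
  calc _ ≤ ∑ τ, ∏ s, g (φ τ s) := by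
        refine sum_le_sum fun τ _ => ?_
        split_ifs with c
        · rw [hU, prod_union hD, prod_image fun a _ b _ h => inj h, ← prod_mul_distrib,
            ← prod_coe_sort S]
          exact le_of_eq (prod_congr rfl fun s _ => by simp [hg, hφ, c])
        · exact prod_nonneg fun _ _ => g0 _
    _ = ∑ f ∈ univ.image φ, ∏ s, g (f s) :=
        (sum_image (f := fun f : S → T × T => ∏ s, g (f s)) fun a _ b _ h => φi h).symm
    _ ≤ _ := sum_le_sum_of_subset_of_nonneg (subset_univ _) fun _ _ _ => prod_nonneg fun _ _ => g0 _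

theorem matching (k : ℕ) (hk : Fintype.card α = 2 * k) (ty : α → T) (R : T → T → Prop)
    [DecidableRel R] (z u : T → ℝ) (hz : ∀ t, 0 ≤ z t) (hu : ∀ t, 0 ≤ u t)
    (hzu : ∀ t, (num ty t : ℝ) ≤ 2 * k * (z t * u t)) :
    ((sel (Om α) fun m => ∀ h, R (ty h) (ty (m h))).card : ℝ)
      ≤ (Om α).card * (3 * (2 * k + 1)) ^ Fintype.card T
        * (∑ s, ∑ t, if R s t then u s * u t else 0) ^ k * ∏ h, z (ty h) := by
  set L := (∑ s, ∑ t, if R s t then u s * u t else 0) ^ k with hL
  set X := (sel (Om α) fun m => ∀ h, R (ty h) (ty (m h))).card with hX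
  set F : (α → α) → (α → T) → ℝ :=
    fun m τ => if ∀ h, R (τ h) (τ (m h)) then ∏ h, u (τ h) else 0 with hF
  have F0 : ∀ m τ, 0 ≤ F m τ := fun m τ => by
    simp only [hF]; split_ifs
    exacts [prod_nonneg fun _ _ => hu _, le_rfl]
  have h1 : ∀ σ : Equiv.Perm α, (X : ℝ) * ∏ h, u (ty h) ≤ ∑ m ∈ Om α, F m (ty ∘ σ) := by
    intro σ
    have a1 : X ≤ ((Om α).filter fun m => ∀ h, R ((ty ∘ σ) h) ((ty ∘ σ) (m h))).card := by
      refine card_le_card_of_injOn (fun m h => σ.symm (m (σ h))) (fun m hm => ?_)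
        fun m _ m' _ e => ?_
      · simp only [Om, mem_coe, mem_sel, mem_univ, true_and, mem_filter, IsM,
          Function.comp_apply, Equiv.apply_symm_apply] at hm ⊢
        refine ⟨fun h => ⟨by rw [(hm.1 _).1, Equiv.symm_apply_apply], fun c => ?_⟩,
          fun h => hm.2 _⟩
        exact (hm.1 (σ h)).2 (σ.symm_apply_eq.1 c)
      · funext h
        simpa using congrFun e (σ.symm h)
    rw [hF, ← sum_filter, sum_const, nsmul_eq_mul]
    have a2 : ∏ h, u ((ty ∘ σ) h) = ∏ h, u (ty h) := Equiv.prod_comp σ fun h => u (ty h)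
    rw [a2]
    exact mul_le_mul_of_nonneg_right (by exact_mod_cast a1) (prod_nonneg fun _ _ => hu _)
  set P : ℝ := ∏ t, ((num ty t).factorial : ℝ) with hP
  have P0 : 0 < P := prod_pos fun t _ => by exact_mod_cast (num ty t).factorial_pos
  have h2 : ∀ m ∈ Om α, ∑ σ : Equiv.Perm α, F m (ty ∘ σ) ≤ P * L := by
    intro m hm
    rw [← sum_fiberwise' univ (fun σ : Equiv.Perm α => ty ∘ σ) (F m)]
    refine le_trans ?_ (mul_le_mul_of_nonneg_left (pair_le k hk m (mem_sel.1 hm).2 R u hu) P0.le)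
    rw [mul_sum]
    refine sum_le_sum fun τ _ => ?_
    rw [sum_const, nsmul_eq_mul]
    exact mul_le_mul_of_nonneg_right (by rw [hP]; exact_mod_cast fibre_le ty τ) (F0 m τ)
  have h3 : ((2 * k).factorial : ℝ) * (X * ∏ h, u (ty h)) ≤ (Om α).card * (P * L) := by
    have a := sum_le_sum fun σ (_ : σ ∈ (univ : Finset (Equiv.Perm α))) => h1 σ
    rw [sum_const, card_univ, Fintype.card_perm, hk, nsmul_eq_mul, sum_comm] at a
    exact a.trans ((sum_le_card_nsmul _ _ _ h2).trans (nsmul_eq_mul _ _).le)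
  have h4 : P ≤ (3 * (2 * k + 1)) ^ Fintype.card T
      * ((2 * k).factorial * ((∏ h, z (ty h)) * ∏ h, u (ty h))) := by
    have a1 : P ≤ ∏ t, 3 * (2 * k + 1) * (2 * k * (z t * u t) / Real.exp 1) ^ num ty t := by
      refine prod_le_prod (fun _ _ => Nat.cast_nonneg _) fun t _ => fact_le _ _ _ ?_ (hzu t)
      exact_mod_cast (card_le_univ _).trans hk.le
    rw [prod_mul_distrib, prod_const, card_univ,
      ← prod_num ty fun t => 2 * k * (z t * u t) / Real.exp 1] at a1
    refine a1.trans (mul_le_mul_of_nonneg_left ?_ (by positivity))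
    have a2 : ∀ h, 2 * k * (z (ty h) * u (ty h)) / Real.exp 1
        = (2 * k / Real.exp 1) * (z (ty h) * u (ty h)) := fun h => by ring
    simp only [a2]
    rw [prod_mul_distrib, prod_const, card_univ, hk, prod_mul_distrib]
    refine mul_le_mul_of_nonneg_right ?_
      (mul_nonneg (prod_nonneg fun _ _ => hz _) (prod_nonneg fun _ _ => hu _))
    have a3 := Real.pow_div_factorial_le_exp ((2 * k : ℕ) : ℝ) (Nat.cast_nonneg _) (2 * k)
    rw [div_le_iff₀ (by exact_mod_cast (2 * k).factorial_pos)] at a3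
    rw [div_pow, div_le_iff₀ (by positivity), ← Real.exp_nat_mul, mul_one]
    push_cast at a3 ⊢
    linarith
  have z0 : 0 ≤ ∏ h, z (ty h) := prod_nonneg fun _ _ => hz _
  have u0 : 0 < ∏ h, u (ty h) := by
    refine lt_of_le_of_ne (prod_nonneg fun _ _ => hu _) fun c => ?_
    rw [← c] at h4
    simp only [mul_zero] at h4
    linarith
  have L0 : 0 ≤ L := pow_nonneg (sum_nonneg fun s _ => sum_nonneg fun t _ => by
    split_ifs
    exacts [mul_nonneg (hu _) (hu _), le_rfl]) _
  have f0 : (0 : ℝ) < (2 * k).factorial := by exact_mod_cast (2 * k).factorial_pos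
  refine le_of_mul_le_mul_left (a := (2 * k).factorial * ∏ h, u (ty h)) ?_ (mul_pos f0 u0)
  calc _ = ((2 * k).factorial : ℝ) * (X * ∏ h, u (ty h)) := by ring
    _ ≤ (Om α).card * (P * L) := h3
    _ ≤ (Om α).card * ((3 * (2 * k + 1)) ^ Fintype.card T
      * ((2 * k).factorial * ((∏ h, z (ty h)) * ∏ h, u (ty h))) * L) := by gcongr
    _ = _ := by ring

end Pool.Agent.Lib.CL43
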