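import Mathlib

/-! A factorisation of a probability vector through an ellipsoid and its polar. -/

namespace Pool.Agent.Lib.CL43

open Finset Filter Topology

variable {ι κ : Type} [Fintype ι] [Fintype κ]

/-- a sum of squares of linear forms -/
noncomputable def qf (A : κ → ι → ℝ) (u : ι → ℝ) : ℝ := ∑ k, (∑ i, A k i * u i) ^ 2

theorem qf_nonneg (A : κ → ι → ℝ) (u : ι → ℝ) : 0 ≤ qf A u :=
  sum_nonneg fun _ _ => sq_nonneg _

theorem qf_conv (A : κ → ι → ℝ) (u v : ι → ℝ) (s : ℝ) (h0 : 0 ≤ s) (h1 : s ≤ 1) :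
    qf A (fun i => u i + s * (v i - u i)) ≤ (1 - s) * qf A u + s * qf A v := by
  unfold qf
  rw [mul_sum, mul_sum, ← sum_add_distrib]
  refine sum_le_sum fun k _ => ?_
  have e : ∑ i, A k i * (u i + s * (v i - u i))
      = (1 - s) * ∑ i, A k i * u i + s * ∑ i, A k i * v i := by
    rw [mul_sum, mul_sum, ← sum_add_distrib]
    exact sum_congr rfl fun i _ => by ring
  rw [e]
  nlinarith [mul_nonneg (mul_nonneg h0 (sub_nonneg.2 h1))
    (sq_nonneg (∑ i, A k i * u i - ∑ i, A k i * v i))]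

theorem qf_smul (A : κ → ι → ℝ) (c : ℝ) (u : ι → ℝ) :
    qf A (fun i => c * u i) = c ^ 2 * qf A u := by
  unfold qf
  rw [mul_sum]
  refine sum_congr rfl fun k _ => ?_
  rw [← mul_pow, mul_sum]
  congr 1
  exact sum_congr rfl fun i _ => by ring

theorem qf_equiv (A : κ → ι → ℝ) (e : ι ≃ ι) (f : κ ≃ κ) (h : ∀ k i, A (f k) (e i) = A k i)
    (w : ι → ℝ) : qf A (fun i => w (e.symm i)) = qf A w := by
  unfold qf
  rw [← f.sum_comp]
  refine sum_congr rfl fun k _ => ?_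
  rw [← e.sum_comp]
  simp [h]

theorem polar (A : κ → ι → ℝ) (k0 : κ) (c : ℝ) (hc : 0 < c) (hk : ∀ i, c ≤ A k0 i) (N : ι → ℕ)
    (hN : ∀ i, 0 < N i) :
    ∃ u : ι → ℝ, (∀ i, 0 < u i) ∧ qf A u ≤ 1 ∧
      ∀ (w : ι → ℝ) (τ : ℝ), 0 < τ → qf A w ≤ τ ^ 2 →
        ∑ i, (N i : ℝ) / u i * w i ≤ τ * ∑ i, (N i : ℝ) := by
  have hq : Continuous (qf A) := by unfold qf; fun_prop
  have hK : IsCompact {u : ι → ℝ | (∀ i, 0 ≤ u i) ∧ qf A u ≤ 1} := by
    refine (isCompact_Icc (a := (fun _ => 0 : ι → ℝ)) (b := fun _ => 1 / c)).of_isClosed_subset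
      ?_ fun u hu => ⟨fun i => hu.1 i, fun i => ?_⟩
    · refine IsClosed.inter (s₁ := {u : ι → ℝ | ∀ i, 0 ≤ u i}) ?_ (isClosed_le hq continuous_const)
      rw [Set.setOf_forall]
      exact isClosed_iInter fun i => isClosed_le continuous_const (continuous_apply i)
    · have h1 : (∑ i, A k0 i * u i) ^ 2 ≤ 1 :=
        (single_le_sum (f := fun k => (∑ i, A k i * u i) ^ 2) (fun _ _ => sq_nonneg _)
          (mem_univ k0)).trans hu.2
      have h2 : A k0 i * u i ≤ ∑ i, A k0 i * u i :=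
        single_le_sum (f := fun i => A k0 i * u i)
          (fun j _ => mul_nonneg (hc.le.trans (hk j)) (hu.1 j)) (mem_univ i)
      have h3 : ∑ i, A k0 i * u i ≤ 1 := by nlinarith
      have h4 := mul_le_mul_of_nonneg_right (hk i) (hu.1 i)
      show u i ≤ 1 / c
      rw [le_div_iff₀ hc]
      linarith
  have q0 := qf_nonneg A fun _ => 1
  have hu0 : (fun _ => 1 / (1 + qf A fun _ => 1) : ι → ℝ)
      ∈ {u : ι → ℝ | (∀ i, 0 ≤ u i) ∧ qf A u ≤ 1} := by
    refine ⟨fun _ => by positivity, ?_⟩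
    have := qf_smul A (1 / (1 + qf A fun _ => 1)) fun _ => 1
    simp only [mul_one] at this
    rw [this, div_pow, one_pow, one_div_mul_eq_div, div_le_one (by positivity)]
    nlinarith
  obtain ⟨u, hu, hmax⟩ := hK.exists_isMaxOn ⟨_, hu0⟩
    (f := fun u : ι → ℝ => ∏ i, u i ^ N i) (by fun_prop)
  have hpos : ∀ i, 0 < u i := by
    intro i
    have h1 : (0 : ℝ) < ∏ i, u i ^ N i :=
      lt_of_lt_of_le (prod_pos fun _ _ => by positivity) (hmax hu0)
    refine lt_of_le_of_ne (hu.1 i) fun h => h1.ne' ?_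
    exact prod_eq_zero (mem_univ i) (by rw [← h, zero_pow (hN i).ne'])
  refine ⟨u, hpos, hu.2, fun w τ hτ hw => ?_⟩
  have hv : qf A (fun i => τ⁻¹ * w i) ≤ 1 := by
    rw [qf_smul, inv_pow, inv_mul_le_iff₀ (by positivity), mul_one]; exact hw
  have hd : HasDerivAt (fun s : ℝ => ∑ i, (N i : ℝ) * Real.log (u i + s * (τ⁻¹ * w i - u i)))
      (∑ i, (N i : ℝ) * ((τ⁻¹ * w i - u i) / u i)) 0 := by
    refine HasDerivAt.fun_sum fun i _ => HasDerivAt.const_mul _ ?_
    have h1 : HasDerivAt (fun s : ℝ => u i + s * (τ⁻¹ * w i - u i)) (τ⁻¹ * w i - u i) 0 := by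
      simpa using ((hasDerivAt_id (0 : ℝ)).mul_const (τ⁻¹ * w i - u i)).const_add (u i)
    simpa using h1.log (by simpa using (hpos i).ne')
  have hle : ∑ i, (N i : ℝ) * ((τ⁻¹ * w i - u i) / u i) ≤ 0 := by
    refine le_of_tendsto hd.tendsto_slope_zero_right ?_
    have e1 : ∀ᶠ s : ℝ in 𝓝 0, ∀ i, 0 < u i + s * (τ⁻¹ * w i - u i) := by
      refine eventually_all.2 fun i => ?_
      have : ContinuousAt (fun s : ℝ => u i + s * (τ⁻¹ * w i - u i)) 0 := by fun_prop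
      exact this.eventually (lt_mem_nhds (by simpa using hpos i))
    have e2 : ∀ᶠ s : ℝ in 𝓝 0, s < 1 := gt_mem_nhds one_pos
    filter_upwards [mem_nhdsWithin_of_mem_nhds e1, mem_nhdsWithin_of_mem_nhds e2,
      self_mem_nhdsWithin] with s h1 h2 h3
    have h3' : 0 < s := h3
    have h4 := qf_conv A u (fun i => τ⁻¹ * w i) s h3'.le h2.le
    have h5 : ∏ i, (u i + s * (τ⁻¹ * w i - u i)) ^ N i ≤ ∏ i, u i ^ N i :=
      hmax (a := fun i => u i + s * (τ⁻¹ * w i - u i))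
        ⟨fun i => (h1 i).le, h4.trans (by nlinarith [hu.2])⟩
    have h6 := Real.log_le_log (prod_pos fun i _ => pow_pos (h1 i) _) h5
    rw [Real.log_prod fun i _ => (pow_pos (h1 i) _).ne',
      Real.log_prod fun i _ => (pow_pos (hpos i) _).ne'] at h6
    simp only [Real.log_pow] at h6
    simp only [zero_add, zero_mul, add_zero, smul_eq_mul]
    exact mul_nonpos_of_nonneg_of_nonpos (inv_nonneg.2 h3'.le) (sub_nonpos.2 h6)
  have e : ∑ i, (N i : ℝ) / u i * w i - τ * ∑ i, (N i : ℝ)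
      = τ * ∑ i, (N i : ℝ) * ((τ⁻¹ * w i - u i) / u i) := by
    rw [mul_sum, mul_sum, ← sum_sub_distrib]
    refine sum_congr rfl fun i _ => ?_
    have := (hpos i).ne'
    field_simp
  nlinarith [mul_nonneg hτ.le (neg_nonneg.2 hle)]

end Pool.Agent.Lib.CL43
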