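import Pool.Agent.Lib.CL43.Cert

/-! Types of half-edges, stars, and the weights for one profile. -/

namespace Pool.Agent.Lib.CL43

open Finset

/-- kind and colour of a half-edge: 0 chosen parent edge, 1 its other end, 2 further tight edge,
3 any other -/
abbrev Ty : Type := Fin 4 × Cc

/-- types that can be joined -/
def Cp (s t : Ty) : Prop :=
  (s.1 = 0 ∧ t.1 = 1 ∧ t.2 = s.2 - 11) ∨ (s.1 = 1 ∧ t.1 = 0 ∧ s.2 = t.2 - 11) ∨
  (s.1 = 2 ∧ t.1 = 3 ∧ t.2 = s.2 - 11) ∨ (s.1 = 3 ∧ t.1 = 2 ∧ s.2 = t.2 - 11) ∨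
  (s.1 = 3 ∧ t.1 = 3 ∧ 12 ≤ (s.2 - t.2).val ∧ (s.2 - t.2).val ≤ 15)

instance : DecidableRel Cp := fun _ _ => by unfold Cp; infer_instance

/-- weight of the three kinds at a vertex -/
noncomputable def wt (a b d : Fin 4) : ℝ :=
  if a = 0 then (if b ≠ 0 ∧ d ≠ 0 then 1 else 0)
  else if b = 0 then (if a ≠ 2 ∧ d ≠ 0 then 1 else 0)
  else if d = 0 then (if a ≠ 2 ∧ b ≠ 2 then 1 else 0) else 1 / 1728000

theorem wt_nonneg (a b d : Fin 4) : 0 ≤ wt a b d := by
  unfold wt; split_ifs <;> norm_num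

theorem wt_sum (Z : Fin 4 → ℝ) : ∑ a, ∑ b, ∑ d, wt a b d * (Z a * Z b * Z d)
    = 3 * Z 0 * ((Z 1 + Z 3) ^ 2 + (Z 1 + Z 3) * Z 2 + Z 2 ^ 2 / 3)
      + (Z 1 + Z 3 + Z 2) ^ 3 / 1728000 := by
  simp [Fin.sum_univ_four, wt]
  ring

theorem cp_sum (u : Ty → ℝ) : (∑ s, ∑ t, if Cp s t then u s * u t else 0)
    = 2 * ∑ c, u (0, c) * u (1, c - 11) + ∑ i : Io, ∑ j : Io, (Bz i j : ℝ) *
      (u (if i.1 then 3 else 2, i.2) * u (if j.1 then 3 else 2, j.2)) := by
  have e : ∑ c, ∑ c', (if c = c' - 11 then u (1, c) * u (0, c') else 0)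
      = ∑ c, u (0, c) * u (1, c - 11) := by
    rw [sum_comm]; simp [mul_comm]
  simp [Fintype.sum_prod_type, Fin.sum_univ_four, Cp, Bz, sum_add_distrib, e]
  ring

/-- admissible profiles -/
def Adm (n : ℕ) (N : Ty → ℕ) : Prop :=
  ∑ c, N (0, c) ≤ n ∧ ∑ c, N (1, c) ≤ n ∧ ∑ c, N (2, c) + ∑ c, N (3, c) ≤ n + 512000

theorem weights (n : ℕ) (hn : 2000 * 512054 ≤ n) (N : Ty → ℕ) (hN : Adm n N) :
    ∃ z u : Ty → ℝ, (∀ t, 0 ≤ z t) ∧ (∀ t, 0 ≤ u t) ∧ (∀ t, (N t : ℝ) ≤ 3 * n * (z t * u t)) ∧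
      (∑ s, ∑ t, if Cp s t then u s * u t else 0) ≤ (2 + (2001 / 2000) ^ 2) / 9 ∧
      ∑ c, ∑ a, ∑ b, ∑ d, wt a b d * (z (a, c) * z (b, c) * z (d, c)) ≤ 5191 / 1000 := by
  obtain ⟨w, w0, w1, w2⟩ := polar Ar none (52 / 10000) (by norm_num)
    (fun i => by simp [Ar, Az]; norm_num) (fun i : Io => N (if i.1 then 3 else 2, i.2) + 1)
    fun i => Nat.succ_pos _
  set M : ℝ := ∑ i : Io, ((N (if i.1 then 3 else 2, i.2) + 1 : ℕ) : ℝ) with hM
  have n0 : (2000 * 512054 : ℝ) ≤ n := by exact_mod_cast hn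
  have n1 : (0 : ℝ) < n := by linarith
  have M0 : 0 < M := sum_pos (fun i _ => by positivity) univ_nonempty
  have M1 : M ≤ 2001 / 2000 * n := by
    have h3 : ((∑ c, N (2, c) + ∑ c, N (3, c) : ℕ) : ℝ) ≤ (n + 512000 : ℕ) := by
      exact_mod_cast hN.2.2
    have : M = ∑ c, (N (2, c) : ℝ) + ∑ c, (N (3, c) : ℝ) + 54 := by
      simp [hM, Fintype.sum_prod_type, sum_add_distrib]; ring
    push_cast at h3
    linarith
  set φ : Io → ℝ := fun i => ((N (if i.1 then 3 else 2, i.2) + 1 : ℕ) : ℝ) / w i / M with hφ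
  have φ0 : ∀ i, 0 ≤ φ i := fun i => by have := w0 i; positivity
  have hP : Pol φ := by
    intro v τ h1 h2
    have := w2 v τ h1 h2
    rw [← div_le_iff₀ M0, sum_div] at this
    exact le_trans (le_of_eq (sum_congr rfl fun i _ => by simp only [hφ]; ring)) this
  have y0 : ∀ t, 0 < yv φ t := fun t => by
    nlinarith [(pol_all φ hP t).2, sq_nonneg (yv φ (11 + t) + φ (true, t) + φ (false, t) / 2),
      sq_nonneg (φ (false, t))]
  have φw : ∀ i : Io, (N (if i.1 then 3 else 2, i.2) : ℝ)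
      ≤ 3 * n * (φ i * (M / (3 * n) * w i)) := fun i => by
    have := (w0 i).ne'
    have e : 3 * n * (φ i * (M / (3 * n) * w i)) = N (if i.1 then 3 else 2, i.2) + 1 := by
      simp only [hφ]; push_cast; field_simp
    linarith
  refine ⟨fun t => ![N (0, t.2) / n / yv φ t.2, yv φ (11 + t.2), φ (false, t.2), φ (true, t.2)] t.1,
    fun t => ![yv φ t.2 / 3, N (1, t.2) / (3 * n) / yv φ (11 + t.2), M / (3 * n) * w (false, t.2),
      M / (3 * n) * w (true, t.2)] t.1, ?_, ?_, ?_, ?_, ?_⟩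
  · rintro ⟨k, c⟩
    have := y0 c
    have := y0 (11 + c)
    fin_cases k
    exacts [by simp; positivity, by simp; positivity, φ0 _, φ0 _]
  · rintro ⟨k, c⟩
    have := y0 c
    have := y0 (11 + c)
    have := w0 (false, c)
    have := w0 (true, c)
    fin_cases k <;> simp <;> positivity
  · rintro ⟨k, c⟩
    have := (y0 c).ne'
    have := (y0 (11 + c)).ne'
    fin_cases k
    · simp; exact le_of_eq (by field_simp)
    · simp; exact le_of_eq (by field_simp)
    · simpa using φw (false, c)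
    · simpa using φw (true, c)
  · rw [cp_sum]
    have a1 : ∑ c, yv φ c / 3 * (N (1, c - 11) / (3 * n) / yv φ (11 + (c - 11))) ≤ 1 / 9 := by
      have h2 : ((∑ c, N (1, c) : ℕ) : ℝ) ≤ n := by exact_mod_cast hN.2.1
      have : ∀ c, yv φ c / 3 * (N (1, c - 11) / (3 * n) / yv φ (11 + (c - 11)))
          = N (1, c - 11) / (9 * n) := fun c => by
        have := (y0 c).ne'
        rw [add_sub_cancel]; field_simp; ring
      simp only [this]
      have e : ∑ c, (N (1, c - 11) : ℝ) = ∑ c, (N (1, c) : ℝ) :=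
        (Equiv.subRight (11 : Cc)).sum_comp fun c => (N (1, c) : ℝ)
      rw [← sum_div, e, div_le_iff₀ (by positivity)]
      push_cast at h2
      linarith
    have a2 := (bq_le w fun i => (w0 i).le).trans w1
    have a3 : (M / (3 * n)) ^ 2 ≤ (2001 / 2000) ^ 2 / 9 := by
      have : M / (3 * n) ≤ 2001 / 2000 / 3 := by rw [div_le_iff₀ (by positivity)]; linarith
      have h := pow_le_pow_left₀ (by positivity) this 2
      linarith
    have a4 := mul_le_mul_of_nonneg_left a2 (sq_nonneg (M / (3 * n)))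
    rw [mul_one] at a4
    have a5 := a4.trans a3
    simp only [mul_sum] at a5
    refine le_trans (add_le_add (mul_le_mul_of_nonneg_left a1 zero_le_two)
      (le_trans (le_of_eq ?_) a5)) (le_of_eq (by ring))
    refine sum_congr rfl fun i _ => sum_congr rfl fun j _ => ?_
    rcases i with ⟨_ | _, _⟩ <;> rcases j with ⟨_ | _, _⟩ <;> simp <;> ring
  · have h1 : ((∑ c, N (0, c) : ℕ) : ℝ) ≤ n := by exact_mod_cast hN.1
    have a1 : ∑ c, ((N (0, c) : ℝ) / n * (519 / 100) + 1 / 27000) ≤ 5191 / 1000 := by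
      rw [sum_add_distrib, ← sum_mul, ← sum_div]
      push_cast at h1
      have := (div_le_one n1).2 h1
      simp only [sum_const, card_univ, ZMod.card, nsmul_eq_mul]
      push_cast
      linarith
    refine le_trans (sum_le_sum fun c _ => ?_) a1
    rw [wt_sum fun a => ![N (0, c) / n / yv φ c, yv φ (11 + c), φ (false, c), φ (true, c)] a]
    obtain ⟨b1, b2⟩ := pol_all φ hP c
    have b3 := y0 c
    have b4 := y0 (11 + c)
    have b5 := φ0 (false, c)
    have b6 := φ0 (true, c)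
    simp only [Matrix.cons_val_zero, Matrix.cons_val_one, Matrix.cons_val]
    refine add_le_add ?_ ?_
    · have : (0 : ℝ) ≤ N (0, c) / n / yv φ c := by positivity
      calc _ ≤ 3 * (N (0, c) / n / yv φ c) * (173 / 100 * yv φ c) := by gcongr; linarith
        _ = _ := by field_simp; ring
    · have c1 : yv φ (11 + c) + φ (true, c) + φ (false, c) ≤ 4 := by
        refine abs_le_of_sq_le_sq' ?_ (by norm_num) |>.2
        nlinarith [mul_nonneg (add_nonneg b4.le b6) b5, sq_nonneg (yv φ (11 + c) + φ (true, c))]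
      have := pow_le_pow_left₀ (by positivity) c1 3
      linarith

end Pool.Agent.Lib.CL43
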